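import Pool.Agent.W209.CF.Basic

/-!
Project CF3, part ODDK: the component touched by an entry is a path, and together with the
entry it is an odd cycle.
-/

namespace Pool.Agent.W100.CF3

open Finset Pool.Agent.W209.CF

set_option linter.unusedSectionVars false

section
variable {V E : Type} [Fintype V] [DecidableEq V] [Fintype E] [DecidableEq E]
variable {inc : E → Finset V}

/-- a vertex of degree at most two in `K` lies in at most two members -/
theorem kd_three {K : Finset E} {v : V} (hk : kd inc K v ≤ 2) {e1 e2 e3 : E}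
    (h1 : e1 ∈ K) (h2 : e2 ∈ K) (h3 : e3 ∈ K) (v1 : v ∈ inc e1) (v2 : v ∈ inc e2)
    (v3 : v ∈ inc e3) (h12 : e1 ≠ e2) : e3 = e1 ∨ e3 = e2 := by
  by_contra hcon
  push Not at hcon
  have h0 : ({e1, e2, e3} : Finset E) ⊆ K.filter (fun e => v ∈ inc e) := by
    intro e he
    simp only [mem_insert, mem_singleton] at he
    rw [mem_filter]
    rcases he with rfl | rfl | rfl
    · exact ⟨h1, v1⟩
    · exact ⟨h2, v2⟩
    · exact ⟨h3, v3⟩
  have h4 := card_le_card h0
  have h5 : ({e1, e2, e3} : Finset E).card = 3 := by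
    rw [card_insert_of_notMem, card_insert_of_notMem, card_singleton]
    · simp [hcon.2.symm]
    · simp [h12, hcon.1.symm]
  unfold kd at hk
  omega

theorem kd_ge_two {K : Finset E} {v : V} {e1 e2 : E}
    (h1 : e1 ∈ K) (h2 : e2 ∈ K) (v1 : v ∈ inc e1) (v2 : v ∈ inc e2)
    (h12 : e1 ≠ e2) : 2 ≤ kd inc K v := by
  have h0 : ({e1, e2} : Finset E) ⊆ K.filter (fun e => v ∈ inc e) := by
    intro e he
    simp only [mem_insert, mem_singleton] at he
    rw [mem_filter]
    rcases he with rfl | rfl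
    · exact ⟨h1, v1⟩
    · exact ⟨h2, v2⟩
  have h4 := card_le_card h0
  rw [card_pair h12] at h4
  exact h4

theorem kd_one_unique {K : Finset E} {v : V} (hk : kd inc K v ≤ 1) {e1 e2 : E}
    (h1 : e1 ∈ K) (h2 : e2 ∈ K) (v1 : v ∈ inc e1) (v2 : v ∈ inc e2) : e1 = e2 := by
  by_contra h
  have := kd_ge_two h1 h2 v1 v2 h
  omega

/-- in a set of three elements, three elements different from a fixed one are not distinct -/
theorem third {A : Finset V} (hA : A.card = 3) {p x y z : V} (hp : p ∈ A) (hx : x ∈ A)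
    (hy : y ∈ A) (hz : z ∈ A) (hxp : x ≠ p) (hyp : y ≠ p) (hzp : z ≠ p) (hxy : x ≠ y) :
    z = x ∨ z = y := by
  by_contra hcon
  push Not at hcon
  have h0 : ({p, x, y, z} : Finset V) ⊆ A := by
    intro e he
    simp only [mem_insert, mem_singleton] at he
    rcases he with rfl | rfl | rfl | rfl <;> assumption
  have h4 := card_le_card h0
  have h5 : ({p, x, y, z} : Finset V).card = 4 := by
    rw [card_insert_of_notMem, card_insert_of_notMem, card_insert_of_notMem, card_singleton]
    · simp [hcon.2.symm]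
    · simp [hxy, hcon.1.symm]
    · simp [hxp.symm, hyp.symm, hzp.symm]
  omega

/-- a cyclic enumeration of `K` -/
structure Cyc (inc : E → Finset V) (K : Finset E) (N : ℕ) (G : ℕ → E) : Prop where
  hG : ∀ i j, G i = G j ↔ i % N = j % N
  hK : ∀ e, e ∈ K ↔ ∃ i, G i = e
  meet : ∀ i, ∃ v, v ∈ inc (G i) ∧ v ∈ inc (G (i + 1))

theorem Cyc.rot {K : Finset E} {N : ℕ} (hN : 1 ≤ N) {G : ℕ → E} (h : Cyc inc K N G) (j : ℕ) :
    Cyc inc K N (fun i => G (j + i)) := by
  refine ⟨fun a b => ?_, fun e => ?_, fun i => ?_⟩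
  · rw [h.hG]
    constructor
    · intro h1
      exact Nat.ModEq.add_left_cancel' j h1
    · intro h1
      exact Nat.ModEq.add_left j h1
  · rw [h.hK]
    constructor
    · rintro ⟨i, hi⟩
      refine ⟨i + j * (N - 1), ?_⟩
      rw [← hi, h.hG]
      have h1 : j + (i + j * (N - 1)) = i + j * N := by
        obtain ⟨M, rfl⟩ : ∃ M, N = M + 1 := ⟨N - 1, by omega⟩
        rw [Nat.add_sub_cancel]
        ring
      rw [h1, Nat.add_mul_mod_self_right]
    · rintro ⟨i, hi⟩
      exact ⟨j + i, hi⟩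
  · exact h.meet (j + i)

/-- neighbours in a cycle -/
theorem Cyc.nbr (hc : ∀ e, (inc e).card = 3) {K : Finset E} {N : ℕ} (hN : 3 ≤ N) {G : ℕ → E}
    (h : Cyc inc K N G) (kd2 : ∀ v, kd inc K v ≤ 2)
    (pri1 : ∀ e ∈ K, ∃ p ∈ inc e, kd inc K p = 1 ∧ ∀ q ∈ inc e, q ≠ p → kd inc K q = 2)
    (i : ℕ) : ∃ v1 v2, v1 ≠ v2 ∧ v1 ∈ inc (G i) ∧ v1 ∈ inc (G (i + 1)) ∧
      v2 ∈ inc (G (i + 1)) ∧ v2 ∈ inc (G (i + 2)) ∧
      (∀ v ∈ inc (G (i + 1)), kd inc K v = 2 → v = v1 ∨ v = v2) ∧
      ∀ e' ∈ K, e' ≠ G (i + 1) → ∀ v ∈ inc e', v ∈ inc (G (i + 1)) →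
        (v = v1 ∧ e' = G i) ∨ (v = v2 ∧ e' = G (i + 2)) := by
  have hmem : ∀ k, G k ∈ K := fun k => (h.hK _).2 ⟨k, rfl⟩
  have n01 : G i ≠ G (i + 1) := by
    rw [Ne, h.hG]
    intro h1
    have h2 : 0 ≡ 1 [MOD N] := Nat.ModEq.add_left_cancel' i h1
    have h3 : 0 % N = 1 % N := h2
    rw [Nat.mod_eq_of_lt (by omega), Nat.mod_eq_of_lt (by omega)] at h3
    omega
  have n12 : G (i + 1) ≠ G (i + 2) := by
    rw [Ne, h.hG]
    intro h1
    have h2 : 1 ≡ 2 [MOD N] := Nat.ModEq.add_left_cancel' i h1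
    have h3 : 1 % N = 2 % N := h2
    rw [Nat.mod_eq_of_lt (by omega), Nat.mod_eq_of_lt (by omega)] at h3
    omega
  have n02 : G i ≠ G (i + 2) := by
    rw [Ne, h.hG]
    intro h1
    have h2 : 0 ≡ 2 [MOD N] := Nat.ModEq.add_left_cancel' i h1
    have h3 : 0 % N = 2 % N := h2
    rw [Nat.mod_eq_of_lt (by omega), Nat.mod_eq_of_lt (by omega)] at h3
    omega
  obtain ⟨v1, h10, h11⟩ := h.meet i
  obtain ⟨v2, h21, h22⟩ := h.meet (i + 1)
  obtain ⟨p, hp, hp1, hq⟩ := pri1 (G (i + 1)) (hmem _)
  have hne : v1 ≠ v2 := by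
    rintro rfl
    rcases kd_three (kd2 v1) (hmem i) (hmem (i + 1)) (hmem (i + 1 + 1)) h10 h11 h22 n01 with h5 | h5
    · exact n02 h5.symm
    · exact n12 h5.symm
  have k1 : 2 ≤ kd inc K v1 := kd_ge_two (hmem i) (hmem (i + 1)) h10 h11 n01
  have k2 : 2 ≤ kd inc K v2 := kd_ge_two (hmem (i + 1)) (hmem (i + 1 + 1)) h21 h22 n12
  have p1 : v1 ≠ p := by
    rintro rfl
    omega
  have p2 : v2 ≠ p := by
    rintro rfl
    omega
  have key : ∀ v ∈ inc (G (i + 1)), kd inc K v = 2 → v = v1 ∨ v = v2 := by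
    intro v hv hk
    refine third (hc (G (i + 1))) hp h11 h21 hv p1 p2 ?_ hne
    rintro rfl
    omega
  refine ⟨v1, v2, hne, h10, h11, h21, h22, key, ?_⟩
  intro e' he' hne' v hv hv'
  have hk : kd inc K v = 2 := by
    have h5 := kd_ge_two he' (hmem (i + 1)) hv hv' hne'
    have h6 := kd2 v
    omega
  rcases key v hv' hk with rfl | rfl
  · left
    refine ⟨rfl, ?_⟩
    rcases kd_three (kd2 v) (hmem i) (hmem (i + 1)) he' h10 h11 hv n01 with h5 | h5
    · exact h5
    · exact absurd h5 hne'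
  · right
    refine ⟨rfl, ?_⟩
    rcases kd_three (kd2 v) (hmem (i + 1)) (hmem (i + 1 + 1)) he' h21 h22 hv n12 with h5 | h5
    · exact absurd h5 hne'
    · exact h5

theorem Cyc.idx {K : Finset E} {N : ℕ} (hN : 3 ≤ N) {G : ℕ → E} (h : Cyc inc K N G) {e : E}
    (he : e ∈ K) : ∃ k, k < N ∧ G k = e := by
  obtain ⟨i, hi⟩ := (h.hK e).1 he
  refine ⟨i % N, Nat.mod_lt _ (by omega), ?_⟩
  rw [← hi, h.hG, Nat.mod_mod]

theorem Cyc.inj {K : Finset E} {N : ℕ} {G : ℕ → E} (h : Cyc inc K N G) {i j : ℕ}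
    (hi : i < N) (hj : j < N) (he : G i = G j) : i = j := by
  rw [h.hG, Nat.mod_eq_of_lt hi, Nat.mod_eq_of_lt hj] at he
  exact he

theorem Cyc.per {K : Finset E} {N : ℕ} {G : ℕ → E} (h : Cyc inc K N G) (i : ℕ) :
    G (i + N) = G i := by
  rw [h.hG, Nat.add_mod_right]

theorem Cyc.conn0 {K : Finset E} {N : ℕ} (hN : 3 ≤ N) {G : ℕ → E}
    (h : Cyc inc K N G) : ∀ A ⊆ K.erase (G 0), A.Nonempty →
    (∀ e1 ∈ A, ∀ e2 ∈ K.erase (G 0), (∃ v, v ∈ inc e1 ∧ v ∈ inc e2) → e2 ∈ A) →
      A = K.erase (G 0) := by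
  intro A hA hne hcl
  obtain ⟨e1, he1⟩ := hne
  have h1 := hA he1
  rw [mem_erase] at h1
  obtain ⟨k, hk, hk1⟩ := h.idx hN h1.2
  have hk0 : 1 ≤ k := by
    rcases Nat.eq_zero_or_pos k with h2 | h2
    · subst h2
      exact absurd hk1.symm h1.1
    · exact h2
  have hmem : ∀ m, 1 ≤ m → m < N → G m ∈ K.erase (G 0) := by
    intro m hm1 hm2
    rw [mem_erase]
    refine ⟨?_, (h.hK _).2 ⟨m, rfl⟩⟩
    intro h3
    have := h.inj hm2 (by omega) h3
    omega
  have hup : ∀ m, k + m < N → G (k + m) ∈ A := by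
    intro m
    induction m with
    | zero =>
      intro _
      rw [Nat.add_zero, hk1]
      exact he1
    | succ m ih =>
      intro hm
      obtain ⟨v, hv1, hv2⟩ := h.meet (k + m)
      exact hcl _ (ih (by omega)) _ (hmem _ (by omega) hm) ⟨v, hv1, hv2⟩
  have hdown : ∀ m, m < k → G (k - m) ∈ A := by
    intro m
    induction m with
    | zero =>
      intro _
      rw [Nat.sub_zero, hk1]
      exact he1
    | succ m ih =>
      intro hm
      obtain ⟨v, hv1, hv2⟩ := h.meet (k - (m + 1))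
      have h5 : k - (m + 1) + 1 = k - m := by omega
      rw [h5] at hv2
      exact hcl _ (ih (by omega)) _ (hmem _ (by omega) (by omega)) ⟨v, hv2, hv1⟩
  apply Finset.Subset.antisymm hA
  intro e he
  have h2 := he
  rw [mem_erase] at h2
  obtain ⟨m, hm, hm1⟩ := h.idx hN h2.2
  have hm0 : 1 ≤ m := by
    rcases Nat.eq_zero_or_pos m with h3 | h3
    · subst h3
      exact absurd hm1.symm h2.1
    · exact h3
  rw [← hm1]
  rcases le_total k m with h3 | h3
  · obtain ⟨d, rfl⟩ := Nat.exists_eq_add_of_le h3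
    exact hup d hm
  · have := hdown (k - m) (by omega)
    rwa [show k - (k - m) = m by omega] at this

theorem Cyc.col0 (hc : ∀ e, (inc e).card = 3) {K : Finset E} {N : ℕ} (hN : 3 ≤ N)
    (hodd : N % 2 = 1) {G : ℕ → E}
    (h : Cyc inc K N G) (kd2 : ∀ v, kd inc K v ≤ 2)
    (pri1 : ∀ e ∈ K, ∃ p ∈ inc e, kd inc K p = 1 ∧ ∀ q ∈ inc e, q ≠ p → kd inc K q = 2) :
    ∃ c : E → Fin 3, (∀ e', c e' ≠ 0 ↔ (e' ∈ K ∧ e' ≠ G 0)) ∧ St inc c ∧
    ∀ x ∈ inc (G 0), ∀ y ∈ inc (G 0), x ≠ y → kd inc K x = 2 → kd inc K y = 2 →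
      cnt inc c 1 x ≠ cnt inc c 1 y := by
  classical
  have hmem : ∀ k, G k ∈ K := fun k => (h.hK _).2 ⟨k, rfl⟩
  set c : E → Fin 3 := fun e => if ∃ k, k < N ∧ k % 2 = 1 ∧ G k = e then 1
    else if ∃ k, k < N ∧ 1 ≤ k ∧ G k = e then 2 else 0 with hcdef
  have c1 : ∀ k, k < N → k % 2 = 1 → c (G k) = 1 := by
    intro k h1 h2
    rw [hcdef]
    exact if_pos ⟨k, h1, h2, rfl⟩
  have c2 : ∀ k, k < N → 1 ≤ k → k % 2 = 0 → c (G k) = 2 := by
    intro k h1 h2 h3
    rw [hcdef]
    change (if _ then _ else _) = _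
    rw [if_neg, if_pos ⟨k, h1, h2, rfl⟩]
    rintro ⟨k', h4, h5, h6⟩
    have := h.inj h4 h1 h6
    omega
  have c0 : c (G 0) = 0 := by
    rw [hcdef]
    change (if _ then _ else _) = _
    rw [if_neg, if_neg]
    · rintro ⟨k', h4, h5, h6⟩
      have := h.inj h4 (by omega) h6
      omega
    · rintro ⟨k', h4, h5, h6⟩
      have := h.inj h4 (by omega) h6
      omega
  have cK : ∀ e, c e ≠ 0 → ∃ k, k < N ∧ 1 ≤ k ∧ G k = e := by
    intro e he
    by_cases h1 : ∃ k, k < N ∧ k % 2 = 1 ∧ G k = e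
    · obtain ⟨k, h2, h3, h4⟩ := h1
      exact ⟨k, h2, by omega, h4⟩
    · by_cases h2 : ∃ k, k < N ∧ 1 ≤ k ∧ G k = e
      · exact h2
      · exfalso
        apply he
        rw [hcdef]
        change (if _ then _ else _) = _
        rw [if_neg h1, if_neg h2]
  have cpar : ∀ k k', k < N → 1 ≤ k → k' < N → 1 ≤ k' → c (G k) = c (G k') → k % 2 = k' % 2 := by
    intro k k' h1 h2 h3 h4 h5
    rcases Nat.mod_two_eq_zero_or_one k with h6 | h6 <;>
      rcases Nat.mod_two_eq_zero_or_one k' with h7 | h7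
    · omega
    · rw [c2 k h1 h2 h6, c1 k' h3 h7] at h5
      exact absurd h5 (by decide)
    · rw [c1 k h1 h6, c2 k' h3 h4 h7] at h5
      exact absurd h5 (by decide)
    · omega
  have hst : ∀ v (e1 e2 : E), v ∈ inc e1 → v ∈ inc e2 → c e1 ≠ 0 → c e1 = c e2 → e1 = e2 := by
    intro v e1 e2 hv1 hv2 hn he
    by_contra hne
    obtain ⟨k1, h1, h2, rfl⟩ := cK e1 hn
    obtain ⟨k2, h3, h4, rfl⟩ := cK e2 (by rw [← he]; exact hn)
    have hpar := cpar k1 k2 h1 h2 h3 h4 he
    obtain ⟨w1, w2, -, -, -, -, -, -, hw⟩ := h.nbr hc hN kd2 pri1 (k1 - 1)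
    rw [show k1 - 1 + 1 = k1 by omega, show k1 - 1 + 2 = k1 + 1 by omega] at hw
    rcases hw (G k2) (hmem k2) (Ne.symm hne) v hv2 hv1 with ⟨-, h5⟩ | ⟨-, h5⟩
    · have := h.inj h3 (by omega) h5
      omega
    · by_cases h6 : k1 + 1 < N
      · have := h.inj h3 h6 h5
        omega
      · have h7 : k1 + 1 = 0 + N := by omega
        rw [h7, h.per] at h5
        have := h.inj h3 (by omega) h5
        omega
  refine ⟨c, ?_, ?_, ?_⟩
  · intro e'
    constructor
    · intro h1
      obtain ⟨k, h2, h3, rfl⟩ := cK e' h1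
      refine ⟨hmem k, ?_⟩
      intro h4
      have := h.inj h2 (by omega) h4
      omega
    · rintro ⟨h1, h2⟩
      obtain ⟨k, hk, rfl⟩ := h.idx hN h1
      have hk0 : 1 ≤ k := by
        rcases Nat.eq_zero_or_pos k with h3 | h3
        · subst h3
          exact absurd rfl h2
        · exact h3
      rcases Nat.mod_two_eq_zero_or_one k with h6 | h6
      · rw [c2 k hk hk0 h6]
        decide
      · rw [c1 k hk h6]
        decide
  · intro v
    constructor
    · apply Finset.card_le_one.2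
      intro e1 he1 e2 he2
      rw [mem_cntset] at he1 he2
      exact hst v e1 e2 he1.1 he2.1 (by rw [he1.2]; decide) (by rw [he1.2, he2.2])
    · apply Finset.card_le_one.2
      intro e1 he1 e2 he2
      rw [mem_cntset] at he1 he2
      exact hst v e1 e2 he1.1 he2.1 (by rw [he1.2]; decide) (by rw [he1.2, he2.2])
  · obtain ⟨w1, w2, hne, hw0, hw1, hw2, hw3, hkey, hnb⟩ := h.nbr hc hN kd2 pri1 (N - 1)
    have e1 : G (N - 1 + 1) = G 0 := by
      rw [show N - 1 + 1 = 0 + N by omega, h.per]
    have e2 : G (N - 1 + 2) = G 1 := by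
      rw [show N - 1 + 2 = 1 + N by omega, h.per]
    rw [e1] at hw1 hw2 hkey hnb
    rw [e2] at hw3 hnb
    have a1 : cnt inc c 1 w1 = 0 := by
      rw [cnt_eq_zero]
      intro e he hce
      by_cases h5 : e = G 0
      · rw [h5, c0] at hce
        exact absurd hce (by decide)
      · have h6 : c e ≠ 0 := by rw [hce]; decide
        obtain ⟨k, h7, h8, rfl⟩ := cK e h6
        rcases hnb (G k) (hmem k) h5 w1 he hw1 with ⟨-, h9⟩ | ⟨h9, -⟩
        · rw [h9, c2 (N - 1) (by omega) (by omega) (by omega)] at hce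
          exact absurd hce (by decide)
        · exact hne h9
    have a2 : cnt inc c 1 w2 = 1 := by
      rw [cnt_eq_one]
      refine ⟨G 1, hw3, c1 1 (by omega) (by omega), ?_⟩
      intro e he hce
      by_cases h5 : e = G 0
      · rw [h5, c0] at hce
        exact absurd hce (by decide)
      · have h6 : c e ≠ 0 := by rw [hce]; decide
        obtain ⟨k, h7, h8, rfl⟩ := cK e h6
        rcases hnb (G k) (hmem k) h5 w2 he hw2 with ⟨h9, -⟩ | ⟨-, h9⟩
        · exact absurd h9.symm hne
        · exact h9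
    intro x hx y hy hxy kx ky
    rcases hkey x hx kx with rfl | rfl
    · rcases hkey y hy ky with rfl | rfl
      · exact absurd rfl hxy
      · rw [a1, a2]
        decide
    · rcases hkey y hy ky with rfl | rfl
      · rw [a1, a2]
        decide
      · exact absurd rfl hxy

/-- a cyclic enumeration of odd length gives `OddK` -/
theorem Cyc.oddK (hc : ∀ e, (inc e).card = 3) {K : Finset E} {N : ℕ} (hN : 3 ≤ N)
    (hodd : N % 2 = 1) {G : ℕ → E}
    (h : Cyc inc K N G) (kd2 : ∀ v, kd inc K v ≤ 2)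
    (pri1 : ∀ e ∈ K, ∃ p ∈ inc e, kd inc K p = 1 ∧ ∀ q ∈ inc e, q ≠ p → kd inc K q = 2) :
    OddK inc K := by
  refine ⟨kd2, pri1, ?_, ?_⟩
  · intro e he
    obtain ⟨j, rfl⟩ := (h.hK e).1 he
    exact (h.rot (by omega) j).col0 hc hN hodd kd2 pri1
  · intro e he
    obtain ⟨j, rfl⟩ := (h.hK e).1 he
    exact (h.rot (by omega) j).conn0 hN

/-- the graph of coloured hyperedges -/
def CG (inc : E → Finset V) (s : E → Fin 3) : SimpleGraph E where
  Adj e e' := e ≠ e' ∧ Adj inc s e e'
  symm := ⟨fun _ _ h => ⟨h.1.symm, h.2.symm⟩⟩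
  loopless := ⟨fun _ h => h.1 rfl⟩

theorem path_of_rtg {s : E → Fin 3} {ea eb : E} (h : Relation.ReflTransGen (Adj inc s) ea eb) :
    ∃ (n : ℕ) (F : ℕ → E), F 0 = ea ∧ F n = eb ∧
      (∀ i j, i ≤ n → j ≤ n → F i = F j → i = j) ∧
      ∀ i, i < n → Adj inc s (F i) (F (i + 1)) := by
  classical
  have hr : (CG inc s).Reachable ea eb := by
    induction h with
    | refl => exact SimpleGraph.Reachable.refl _
    | tail _ h2 ih =>
      rename_i b c _
      by_cases hbc : b = c
      · subst hbc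
        exact ih
      · exact ih.trans (SimpleGraph.Adj.reachable ⟨hbc, h2⟩)
  obtain ⟨p, hp⟩ := hr.exists_isPath
  refine ⟨p.length, p.getVert, p.getVert_zero, p.getVert_length, ?_, ?_⟩
  · intro i j hi hj hij
    exact hp.getVert_injOn hi hj hij
  · intro i hi
    exact (p.adj_getVert_succ hi).2

theorem mem_supp {s : E → Fin 3} {e : E} : e ∈ supp s ↔ s e ≠ 0 := by simp [supp]

theorem dg_kd (s : E → Fin 3) (v : V) : dg inc s v = kd inc (supp s) v :=
  dg_eq_kd (fun _ => mem_supp.symm) v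

theorem dg_one_unique {s : E → Fin 3} {v : V} (hk : dg inc s v = 1) {e1 e2 : E}
    (h1 : s e1 ≠ 0) (h2 : s e2 ≠ 0) (v1 : v ∈ inc e1) (v2 : v ∈ inc e2) : e1 = e2 := by
  rw [dg_kd] at hk
  exact kd_one_unique hk.le (mem_supp.2 h1) (mem_supp.2 h2) v1 v2

theorem dg_ge_two {s : E → Fin 3} {v : V} {e1 e2 : E}
    (h1 : s e1 ≠ 0) (h2 : s e2 ≠ 0) (v1 : v ∈ inc e1) (v2 : v ∈ inc e2)
    (h12 : e1 ≠ e2) : 2 ≤ dg inc s v := by
  rw [dg_kd]
  exact kd_ge_two (mem_supp.2 h1) (mem_supp.2 h2) v1 v2 h12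

theorem dg_three {s : E → Fin 3} {v : V} (hk : dg inc s v ≤ 2) {e1 e2 e3 : E}
    (h1 : s e1 ≠ 0) (h2 : s e2 ≠ 0) (h3 : s e3 ≠ 0) (v1 : v ∈ inc e1) (v2 : v ∈ inc e2)
    (v3 : v ∈ inc e3) (h12 : e1 ≠ e2) : e3 = e1 ∨ e3 = e2 := by
  rw [dg_kd] at hk
  exact kd_three hk (mem_supp.2 h1) (mem_supp.2 h2) (mem_supp.2 h3) v1 v2 v3 h12

/-- the formula for `kd` on `KK` -/
theorem kd_KK {s : E → Fin 3} {h : E} (hsh : s h = 0) {v : V} (hv : v ∈ VK inc (KK inc s h)) :
    kd inc (KK inc s h) v = dg inc s v + (if v ∈ inc h then 1 else 0) := by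
  classical
  have hn : h ∉ comp inc s h := by
    intro h1
    exact (mem_comp.1 h1).1 hsh
  have key : (comp inc s h).filter (fun e => v ∈ inc e) =
      univ.filter (fun e => v ∈ inc e ∧ s e ≠ 0) := by
    ext e
    simp only [mem_filter, mem_univ, true_and]
    constructor
    · rintro ⟨h1, h2⟩
      exact ⟨h2, (mem_comp.1 h1).1⟩
    · rintro ⟨h1, h2⟩
      refine ⟨?_, h1⟩
      rw [mem_VK] at hv
      obtain ⟨e', h3, h4⟩ := hv
      rw [KK, mem_insert] at h3
      rcases h3 with rfl | h3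
      · exact comp_touch h2 h4 h1
      · exact comp_closed h3 ⟨(mem_comp.1 h3).1, h2, v, h4, h1⟩
  unfold kd
  rw [KK, filter_insert, dg_eq_card, ← key]
  by_cases h1 : v ∈ inc h
  · rw [if_pos h1, if_pos h1, card_insert_of_notMem]
    rw [mem_filter]
    exact fun h2 => hn h2.1
  · rw [if_neg h1, if_neg h1, Nat.add_zero]

end

theorem oddK : S_irr → S_F1 → S_oddK := by
  intro hirr hF1 V E _ _ _ _ inc hc s hs u h hen
  classical
  have hen' := hen
  obtain ⟨hu, hu0, hrest⟩ := hen'
  have hSt : St inc s := hs.1.1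
  have hd2 : ∀ v, dg inc s v ≤ 2 := St_dg_le hSt
  have hsh : s h = 0 := dg_eq_zero.1 hu0 h hu
  obtain ⟨a, b, hab, hset⟩ : ∃ a b, a ≠ b ∧ (inc h).erase u = {a, b} := by
    rw [← card_eq_two, card_erase_of_mem hu, hc h]
  have hmem : ∀ v, v ∈ inc h ↔ v = u ∨ v = a ∨ v = b := by
    intro v
    have h1 : v ∈ (inc h).erase u ↔ v = a ∨ v = b := by rw [hset]; simp
    rw [mem_erase] at h1
    constructor
    · intro h2
      by_cases h3 : v = u
      · exact Or.inl h3
      · exact Or.inr (h1.1 ⟨h3, h2⟩)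
    · rintro (rfl | h2)
      · exact hu
      · exact (h1.2 h2).2
  have hau : a ≠ u := by
    have h1 : a ∈ (inc h).erase u := by rw [hset]; simp
    exact (mem_erase.1 h1).1
  have hbu : b ≠ u := by
    have h1 : b ∈ (inc h).erase u := by rw [hset]; simp
    exact (mem_erase.1 h1).1
  have ha : a ∈ inc h := (hmem a).2 (by simp)
  have hb : b ∈ inc h := (hmem b).2 (by simp)
  have hda : dg inc s a = 1 := hrest a ha hau
  have hdb : dg inc s b = 1 := hrest b hb hbu
  obtain ⟨ea, haea, hsea⟩ := dg_pos.1 (show dg inc s a ≠ 0 by omega)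
  obtain ⟨eb, hbeb, hseb⟩ := dg_pos.1 (show dg inc s b ≠ 0 by omega)
  obtain ⟨hconn, hcol, ⟨a', ha', haa', hda'⟩, ⟨b', hb', hbb', hdb'⟩⟩ :=
    hF1 V E inc hc s hs u h hen a ha b hb hau hbu hab ea eb hsea haea hseb hbeb
  obtain ⟨n, F, hF0, hFn, hinj, hadj⟩ := path_of_rtg hconn
  have hdh : ∀ v ∈ inc h, dg inc s v ≤ 1 := by
    intro v hv
    rcases (hmem v).1 hv with rfl | rfl | rfl
    · omega
    · omega
    · omega
  have hn1 : 1 ≤ n := by
    rcases Nat.eq_zero_or_pos n with h1 | h1
    · subst h1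
      rw [hF0] at hFn
      rw [hFn] at hcol
      exact absurd rfl hcol
    · exact h1
  have hsF : ∀ i, i ≤ n → s (F i) ≠ 0 := by
    intro i hi
    rcases Nat.lt_or_ge i n with h1 | h1
    · exact (hadj i h1).1
    · have : i = n := by omega
      rw [this, hFn]
      exact hseb
  have hneF : ∀ i, i < n → F i ≠ F (i + 1) := by
    intro i hi h1
    have := hinj i (i + 1) (by omega) (by omega) h1
    omega
  have hpar : ∀ i, i ≤ n → (i % 2 = 0 → s (F i) = s (F 0)) ∧
      (i % 2 = 1 → s (F i) = opp (s (F 0))) := by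
    intro i
    induction i with
    | zero => intro _; exact ⟨fun _ => rfl, fun h1 => absurd h1 (by decide)⟩
    | succ i ih =>
      intro hi
      obtain ⟨h1, h2⟩ := ih (by omega)
      have h3 : s (F i) ≠ s (F (i + 1)) := St_ne hSt (hadj i (by omega)) (hneF i (by omega))
      have h4 : s (F (i + 1)) = opp (s (F i)) :=
        (ne_iff_opp (hsF i (by omega)) (hsF (i + 1) hi)).1 h3.symm
      constructor
      · intro h5
        rw [h4, h2 (by omega), opp_opp]
      · intro h5
        rw [h4, h1 (by omega)]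
  have hodd : n % 2 = 1 := by
    rcases Nat.mod_two_eq_zero_or_one n with h1 | h1
    · exfalso
      have h2 := (hpar n le_rfl).1 h1
      rw [hFn, hF0] at h2
      exact hcol h2.symm
    · exact h1
  -- shared vertices
  have hshare : ∀ i, i < n → ∃ y, y ∈ inc (F i) ∧ y ∈ inc (F (i + 1)) ∧ dg inc s y = 2 := by
    intro i hi
    obtain ⟨-, -, y, h1, h2⟩ := hadj i hi
    refine ⟨y, h1, h2, ?_⟩
    have h3 := dg_ge_two (hsF i (by omega)) (hsF (i + 1) (by omega)) h1 h2 (hneF i hi)
    have h4 := hd2 y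
    omega
  -- local structure
  have hloc : ∀ i, i ≤ n → ∃ p ∈ inc (F i), dg inc s p = 1 ∧ p ∉ inc h ∧
      ∀ q ∈ inc (F i), q ≠ p →
        (dg inc s q = 2 ∧ q ∉ inc h ∧ ∃ j, j ≤ n ∧ j ≠ i ∧ q ∈ inc (F j)) ∨
        (dg inc s q = 1 ∧ q ∈ inc h) := by
    intro i hi
    have hnotin : ∀ q, dg inc s q = 2 → q ∉ inc h := by
      intro q h1 h2
      have := hdh q h2
      omega
    rcases Nat.eq_zero_or_pos i with hi0 | hi0
    · subst hi0
      obtain ⟨y, h1, h2, h3⟩ := hshare 0 (by omega)
      rw [hF0] at h1 ⊢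
      refine ⟨a', ha', hda', ?_, ?_⟩
      · intro h4
        rcases (hmem a').1 h4 with h5 | h5 | h5
        · rw [h5] at hda'
          omega
        · exact haa' h5
        · rw [h5] at ha'
          have h6 := dg_one_unique hdb hsea hseb ha' hbeb
          rw [h6] at hcol
          exact hcol rfl
      · intro q hq hqa'
        by_cases hqa : q = a
        · right
          rw [hqa]
          exact ⟨hda, ha⟩
        · left
          have hya' : y ≠ a' := by
            rintro rfl
            omega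
          have hya : a ≠ y := by
            rintro rfl
            omega
          rcases third (hc ea) ha' haea h1 hq haa'.symm hya' hqa' hya with h5 | h5
          · exact absurd h5 hqa
          · rw [h5]
            exact ⟨h3, hnotin y h3, 1, by omega, by omega, h2⟩
    · rcases Nat.lt_or_ge i n with hin | hin
      · obtain ⟨y, h1, h2, h3⟩ := hshare (i - 1) (by omega)
        obtain ⟨z, k1, k2, k3⟩ := hshare i hin
        rw [show i - 1 + 1 = i by omega] at h2
        obtain ⟨p, hp, hdp⟩ := hirr V E inc hc s hs (F i) (hsF i hi)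
        have hyz : y ≠ z := by
          rintro rfl
          have hne1 : F (i - 1) ≠ F i := by
            intro h5
            have := hinj (i - 1) i (by omega) (by omega) h5
            omega
          rcases dg_three (hd2 y) (hsF (i - 1) (by omega)) (hsF i hi) (hsF (i + 1) (by omega))
            h1 h2 k2 hne1 with h5 | h5
          · have := hinj (i + 1) (i - 1) (by omega) (by omega) h5
            omega
          · have := hinj (i + 1) i (by omega) (by omega) h5
            omega
        refine ⟨p, hp, hdp, ?_, ?_⟩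
        · intro h4
          rcases (hmem p).1 h4 with h5 | h5 | h5
          · rw [h5] at hdp
            omega
          · rw [h5] at hp
            have h6 := dg_one_unique hda (hsF i hi) hsea hp haea
            rw [← hF0] at h6
            have := hinj i 0 (by omega) (by omega) h6
            omega
          · rw [h5] at hp
            have h6 := dg_one_unique hdb (hsF i hi) hseb hp hbeb
            rw [← hFn] at h6
            have := hinj i n (by omega) (by omega) h6
            omega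
        · intro q hq hqp
          left
          have hyp : y ≠ p := by
            rintro rfl
            omega
          have hzp : z ≠ p := by
            rintro rfl
            omega
          rcases third (hc (F i)) hp h2 k1 hq hyp hzp hqp hyz with h5 | h5
          · rw [h5]
            exact ⟨h3, hnotin y h3, i - 1, by omega, by omega, h1⟩
          · rw [h5]
            exact ⟨k3, hnotin z k3, i + 1, by omega, by omega, k2⟩
      · have hin' : i = n := by omega
        subst hin'
        obtain ⟨y, h1, h2, h3⟩ := hshare (i - 1) (by omega)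
        rw [show i - 1 + 1 = i by omega, hFn] at h2
        rw [hFn]
        refine ⟨b', hb', hdb', ?_, ?_⟩
        · intro h4
          rcases (hmem b').1 h4 with h5 | h5 | h5
          · rw [h5] at hdb'
            omega
          · rw [h5] at hb'
            have h6 := dg_one_unique hda hseb hsea hb' haea
            rw [h6] at hcol
            exact hcol rfl
          · exact hbb' h5
        · intro q hq hqb'
          by_cases hqb : q = b
          · right
            rw [hqb]
            exact ⟨hdb, hb⟩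
          · left
            have hyb' : y ≠ b' := by
              rintro rfl
              omega
            have hyb : b ≠ y := by
              rintro rfl
              omega
            rcases third (hc eb) hb' hbeb h2 hq hbb'.symm hyb' hqb' hyb with h5 | h5
            · exact absurd h5 hqb
            · rw [h5]
              exact ⟨h3, hnotin y h3, i - 1, by omega, by omega, h1⟩
  -- closure
  have hclos : ∀ i, i ≤ n → ∀ e', Adj inc s (F i) e' → ∃ j, j ≤ n ∧ F j = e' := by
    intro i hi e' hadj'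
    by_cases hei : F i = e'
    · exact ⟨i, hi, hei⟩
    · obtain ⟨h1, h2, v, h3, h4⟩ := hadj'
      have h5 := dg_ge_two h1 h2 h3 h4 hei
      obtain ⟨p, hp, hdp, -, hq⟩ := hloc i hi
      have hvp : v ≠ p := by
        rintro rfl
        omega
      rcases hq v h3 hvp with ⟨-, -, j, hj, hji, hvj⟩ | ⟨h6, -⟩
      · have hne : F i ≠ F j := by
          intro h7
          exact hji (hinj i j hi hj h7).symm
        rcases dg_three (hd2 v) h1 (hsF j hj) h2 h3 hvj h4 hne with h7 | h7
        · exact absurd h7.symm hei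
        · exact ⟨j, hj, h7.symm⟩
      · omega
  have hcomp : ∀ e, e ∈ comp inc s h ↔ ∃ i, i ≤ n ∧ F i = e := by
    intro e
    constructor
    · intro he
      rw [mem_comp] at he
      obtain ⟨-, e', h1, ⟨v, hv1, hv2⟩, h2⟩ := he
      have h3 : ∃ i, i ≤ n ∧ F i = e' := by
        rcases (hmem v).1 hv1 with h4 | h4 | h4
        · rw [h4] at hv2
          exact absurd (dg_eq_zero.1 hu0 e' hv2) h1
        · rw [h4] at hv2
          refine ⟨0, by omega, ?_⟩
          rw [hF0]
          exact dg_one_unique hda hsea h1 haea hv2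
        · rw [h4] at hv2
          refine ⟨n, le_rfl, ?_⟩
          rw [hFn]
          exact dg_one_unique hdb hseb h1 hbeb hv2
      clear hv2 hv1
      induction h2 with
      | refl => exact h3
      | tail _ h5 ih =>
        obtain ⟨i, hi, hi2⟩ := ih
        rw [← hi2] at h5
        exact hclos i hi _ h5
    · rintro ⟨i, hi, rfl⟩
      induction i with
      | zero =>
        rw [hF0]
        exact comp_touch hsea ha haea
      | succ i ih =>
        exact comp_closed (ih (by omega)) (hadj i (by omega))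
  have hKmem : ∀ e, e ∈ KK inc s h ↔ e = h ∨ ∃ i, i ≤ n ∧ F i = e := by
    intro e
    rw [KK, mem_insert, hcomp]
  have hform : ∀ v ∈ VK inc (KK inc s h),
      kd inc (KK inc s h) v = dg inc s v + (if v ∈ inc h then 1 else 0) :=
    fun v hv => kd_KK hsh hv
  have hhF : ∀ i, i ≤ n → F i ≠ h := by
    intro i hi h1
    apply hsF i hi
    rw [h1, hsh]
  refine ⟨?_, hform⟩
  have hkd2 : ∀ v, kd inc (KK inc s h) v ≤ 2 := by
    intro v
    by_cases hv : v ∈ VK inc (KK inc s h)
    · rw [hform v hv]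
      by_cases h1 : v ∈ inc h
      · rw [if_pos h1]
        have := hdh v h1
        omega
      · rw [if_neg h1]
        exact hd2 v
    · have : kd inc (KK inc s h) v = 0 := by
        by_contra h1
        exact hv (kd_pos.1 h1)
      omega
  have hpri : ∀ e ∈ KK inc s h, ∃ p ∈ inc e, kd inc (KK inc s h) p = 1 ∧
      ∀ q ∈ inc e, q ≠ p → kd inc (KK inc s h) q = 2 := by
    intro e he
    have hVK : ∀ v ∈ inc e, v ∈ VK inc (KK inc s h) := fun v hv => mem_VK.2 ⟨e, he, hv⟩
    rcases (hKmem e).1 he with h1 | ⟨i, hi, h1⟩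
    · subst h1
      refine ⟨u, hu, ?_, ?_⟩
      · rw [hform u (hVK u hu), if_pos hu, hu0]
      · intro q hq hqu
        rw [hform q (hVK q hq), if_pos hq, hrest q hq hqu]
    · obtain ⟨p, hp, hdp, hph, hq⟩ := hloc i hi
      rw [h1] at hp hq
      refine ⟨p, hp, ?_, ?_⟩
      · rw [hform p (hVK p hp), if_neg hph, hdp]
      · intro q hq1 hqp
        rw [hform q (hVK q hq1)]
        rcases hq q hq1 hqp with ⟨h2, h3, -⟩ | ⟨h2, h3⟩
        · rw [if_neg h3, h2]
        · rw [if_pos h3, h2]
  -- the cyclic enumeration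
  have hcyc : Cyc inc (KK inc s h) (n + 2)
      (fun i => if i % (n + 2) = n + 1 then h else F (i % (n + 2))) := by
    refine ⟨?_, ?_, ?_⟩
    · intro i j
      have hi : i % (n + 2) < n + 2 := Nat.mod_lt _ (by omega)
      have hj : j % (n + 2) < n + 2 := Nat.mod_lt _ (by omega)
      constructor
      · intro h1
        by_cases h2 : i % (n + 2) = n + 1
        · by_cases h3 : j % (n + 2) = n + 1
          · rw [h2, h3]
          · simp only [if_pos h2, if_neg h3] at h1
            exact absurd h1.symm (hhF _ (by omega))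
        · by_cases h3 : j % (n + 2) = n + 1
          · simp only [if_neg h2, if_pos h3] at h1
            exact absurd h1 (hhF _ (by omega))
          · simp only [if_neg h2, if_neg h3] at h1
            exact hinj _ _ (by omega) (by omega) h1
      · intro h1
        simp only [h1]
    · intro e
      rw [hKmem]
      constructor
      · rintro (rfl | ⟨i, hi, rfl⟩)
        · refine ⟨n + 1, ?_⟩
          rw [if_pos (Nat.mod_eq_of_lt (by omega))]
        · refine ⟨i, ?_⟩
          have h1 : i % (n + 2) = i := Nat.mod_eq_of_lt (by omega)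
          rw [h1, if_neg (by omega)]
      · rintro ⟨i, rfl⟩
        have hi : i % (n + 2) < n + 2 := Nat.mod_lt _ (by omega)
        by_cases h2 : i % (n + 2) = n + 1
        · left
          rw [if_pos h2]
        · right
          refine ⟨i % (n + 2), by omega, ?_⟩
          rw [if_neg h2]
    · intro i
      have hi : i % (n + 2) < n + 2 := Nat.mod_lt _ (by omega)
      have hi1 : (i + 1) % (n + 2) = (i % (n + 2) + 1) % (n + 2) := by
        rw [Nat.mod_add_mod]
      rcases Nat.lt_or_ge (i % (n + 2)) n with h1 | h1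
      · obtain ⟨-, -, y, h2, h3⟩ := hadj _ h1
        refine ⟨y, ?_, ?_⟩
        · rw [if_neg (by omega)]
          exact h2
        · rw [hi1, Nat.mod_eq_of_lt (show i % (n + 2) + 1 < n + 2 by omega), if_neg (by omega)]
          exact h3
      · rcases Nat.lt_or_ge (i % (n + 2)) (n + 1) with h2 | h2
        · have h3 : i % (n + 2) = n := by omega
          refine ⟨b, ?_, ?_⟩
          · rw [h3, if_neg (by omega), hFn]
            exact hbeb
          · rw [hi1, h3, Nat.mod_eq_of_lt (show n + 1 < n + 2 by omega), if_pos rfl]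
            exact hb
        · have h3 : i % (n + 2) = n + 1 := by omega
          refine ⟨a, ?_, ?_⟩
          · rw [h3, if_pos rfl]
            exact ha
          · rw [hi1, h3, Nat.mod_self, if_neg (by omega), hF0]
            exact haea
  exact hcyc.oddK hc (by omega) (by omega) hkd2 hpri

end Pool.Agent.W100.CF3
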